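import Mathlib
import Pool.Agent.Results.MP_2ec8a3_nt.FewPowersAllHeights

/-!
# Numbers with few exponents are products of few powers
-/

set_option autoImplicit false

namespace Pool.Agent.K1H84.FE

open Finset
open Pool.Agent.Results.MP_2ec8a3_nt.FewPowersAllHeights (PowerProduct Triples)

/-- a positive integer whose exponents lie in a finite set `E` of size `≤ N` is a product of powers
of `N` positive integers dividing its radical -/
theorem powerProduct_of_exponents (N : ℕ) (E : Finset ℕ) (hE : E.card ≤ N) (X m : ℕ) (hm : m ≠ 0)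
    (hX : ∏ p ∈ m.primeFactors, p ≤ X) (h : ∀ p ∈ m.primeFactors, m.factorization p ∈ E) :
    PowerProduct N X m := by
  classical
  have hpos : ∀ S : Finset ℕ, S ⊆ m.primeFactors → 1 ≤ ∏ p ∈ S, p := by
    intro S hS
    exact Nat.one_le_iff_ne_zero.mpr (prod_ne_zero_iff.mpr
      (fun p hp => (Nat.prime_of_mem_primeFactors (hS hp)).ne_zero))
  have hle : ∀ S : Finset ℕ, S ⊆ m.primeFactors → ∏ p ∈ S, p ≤ X := by
    intro S hS
    refine le_trans ?_ hX
    refine prod_le_prod_of_subset_of_one_le' hS (fun p hp _ => ?_)
    exact (Nat.prime_of_mem_primeFactors hp).one_lt.le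
  have hX1 : 1 ≤ X := (hpos _ (Subset.refl _)).trans hX
  -- an equivalence of `E` with an initial segment
  obtain ⟨f⟩ : Nonempty (E ↪ Fin N) := by
    rw [Function.Embedding.nonempty_iff_card_le]
    simpa using hE
  refine ⟨fun j => if hj : ∃ e : E, f e = j then
      ∏ p ∈ m.primeFactors.filter (fun p => m.factorization p = (hj.choose : ℕ)), p else 1,
    fun j => if hj : ∃ e : E, f e = j then (hj.choose : ℕ) else 0, ?_, ?_⟩
  · intro j
    by_cases hj : ∃ e : E, f e = j
    · simp only [dif_pos hj]
      exact ⟨hpos _ (filter_subset _ _), hle _ (filter_subset _ _)⟩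
    · simp only [dif_neg hj]
      exact ⟨le_refl _, hX1⟩
  · have key : ∀ e : E, ∀ hj : ∃ e' : E, f e' = f e, hj.choose = e := by
      intro e hj
      exact f.injective hj.choose_spec
    have h1 : ∏ p ∈ m.primeFactors, p ^ m.factorization p = m :=
      Nat.prod_factorization_pow_eq_self hm
    have h2 : ∏ e ∈ E, ∏ p ∈ m.primeFactors.filter (fun p => m.factorization p = e),
        p ^ m.factorization p = ∏ p ∈ m.primeFactors, p ^ m.factorization p :=
      prod_fiberwise_of_maps_to (fun p hp => h p hp) _
    have h3 : ∀ e : E, (∏ p ∈ m.primeFactors.filter (fun p => m.factorization p = (e : ℕ)), p) ^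
        (e : ℕ) = ∏ p ∈ m.primeFactors.filter (fun p => m.factorization p = (e : ℕ)),
        p ^ m.factorization p := by
      intro e
      rw [← prod_pow]
      refine prod_congr rfl (fun p hp => ?_)
      rw [(mem_filter.mp hp).2]
    have h4 : ∏ j : Fin N, ((if hj : ∃ e : E, f e = j then
        ∏ p ∈ m.primeFactors.filter (fun p => m.factorization p = (hj.choose : ℕ)), p else 1) ^
        (if hj : ∃ e : E, f e = j then (hj.choose : ℕ) else 0)) =
        ∏ j ∈ (univ : Finset E).map f, ((if hj : ∃ e : E, f e = j then
        ∏ p ∈ m.primeFactors.filter (fun p => m.factorization p = (hj.choose : ℕ)), p else 1) ^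
        (if hj : ∃ e : E, f e = j then (hj.choose : ℕ) else 0)) := by
      symm
      refine prod_subset (subset_univ _) ?_
      intro j _ hj
      have : ¬ ∃ e : E, f e = j := by
        intro ⟨e, he⟩
        exact hj (mem_map.mpr ⟨e, mem_univ _, he⟩)
      simp only [dif_neg this]
      norm_num
    rw [h4, prod_map]
    refine (h1.symm.trans h2.symm).trans ?_
    rw [← prod_coe_sort E]
    refine prod_congr rfl (fun e _ => ?_)
    have he : ∃ e' : E, f e' = f e := ⟨e, rfl⟩
    simp only [dif_pos he, key e he]
    exact (h3 e).symm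

end Pool.Agent.K1H84.FE
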